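import Pool.Agent.KS6_11.DetNormal.Stage

set_option autoImplicit false

open Finset Filter Topology Polynomial

namespace Pool.Agent.KS6_11.DetNormal

open Pool.Agent.H.MP_f44585_an

/-- The frequency, among the first `N` positions, of the positions of the base-`r` expansion of `x`
at which the block `w` of `k` digits occurs. The digit number `n` after the radix point is
`⌊x r ^ n⌋ mod r`. -/
noncomputable def freq (r : ℕ) (x : ℝ) {k : ℕ} (w : Fin k → Fin r) (N : ℕ) : ℝ :=
  (((range N).filter (fun i => ∀ j : Fin k,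
      ⌊x * (r : ℝ) ^ (i + (j : ℕ) + 1)⌋ % (r : ℤ) = ((w j : ℕ) : ℤ))).card : ℝ) / (N : ℝ)

/-- `x` is normal in base `r`. -/
def Normal (r : ℕ) (x : ℝ) : Prop :=
  ∀ (k : ℕ) (w : Fin k → Fin r), Tendsto (freq r x w) atTop (𝓝 (1 / (r : ℝ) ^ k))

/-- `x` is deterministic in base `r`: for every `ε > 0` there is a block length `n ≥ 1` such that the
Shannon entropy of the distribution of the blocks of length `n` among the first `N` positions is
less than `ε n` for all large `N`. -/
def Deterministic (r : ℕ) (x : ℝ) : Prop :=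
  ∀ ε : ℝ, 0 < ε → ∃ n : ℕ, 1 ≤ n ∧ ∃ N0 : ℕ, ∀ N : ℕ, N0 ≤ N →
    ∑ w : Fin n → Fin r, Real.negMulLog (freq r x w N) < ε * n

/-- The base-`r` digits of `x` different from `0` have density zero. -/
def Sparse (r : ℕ) (x : ℝ) : Prop :=
  Tendsto (fun N : ℕ => (((range N).filter fun i =>
    ⌊x * (r : ℝ) ^ (i + 1)⌋ % (r : ℤ) ≠ 0).card : ℝ) / N) atTop (𝓝 0)

lemma Sparse.deterministic {r : ℕ} {x : ℝ} (Z : Sparse r x) : Deterministic r x := by
  have T : Tendsto (fun N : ℕ => ∑ w : Fin 1 → Fin r, Real.negMulLog (freq r x w N))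
      atTop (𝓝 0) := by
    rw [← sum_const_zero (s := (univ : Finset (Fin 1 → Fin r)))]
    refine tendsto_finsetSum _ fun w _ => ?_
    simp only [freq, Fin.forall_fin_one, Fin.val_zero, add_zero]
    by_cases hw : ((w 0 : ℕ) : ℤ) = 0
    · rw [hw, ← Real.negMulLog_one]
      refine (Real.continuous_negMulLog.tendsto _).comp ?_
      have := Z.const_sub 1
      rw [sub_zero] at this
      refine this.congr' ((eventually_ne_atTop 0).mono fun N hN => ?_)
      have := congrArg (Nat.cast : ℕ → ℝ) (card_filter_add_card_filter_not (s := range N)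
        fun i => ⌊x * (r : ℝ) ^ (i + 1)⌋ % (r : ℤ) = 0)
      rw [card_range, Nat.cast_add] at this
      field_simp
      linarith
    · rw [← Real.negMulLog_zero]
      refine (Real.continuous_negMulLog.tendsto _).comp (squeeze_zero (fun N => by positivity)
        (fun N => ?_) Z)
      gcongr with i _
      exact fun h k => hw (h.symm.trans k)
  intro ε hε
  refine ⟨1, le_rfl, ?_⟩
  simpa using eventually_atTop.1 (T.eventually (gt_mem_nhds hε))

lemma sparse_val {r : ℕ} (hr : 2 ≤ r) (a : ℤ) (k : ℕ) {d : ℕ → Bool}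
    (hd : Tendsto (fun N : ℕ => (∑ n ∈ range N, ((d n).toNat : ℝ)) / N) atTop (𝓝 0)) :
    Sparse r ((a + val r d) / (r : ℝ) ^ k) := by
  have r0 : (0 : ℝ) < r := by
    have : (2 : ℝ) ≤ r := by exact_mod_cast hr
    linarith
  have := (hd.const_mul 2).add (tendsto_const_div_atTop_nhds_zero_nat ((k : ℝ) + 1))
  rw [mul_zero, add_zero] at this
  refine squeeze_zero (fun N => by positivity) (fun N => ?_) this
  rw [← mul_div_assoc, ← add_div]
  gcongr
  -- positions before `k`, and the others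
  have key : ∀ i : ℕ, (if ⌊(a + val r d) / (r : ℝ) ^ k * (r : ℝ) ^ (i + 1)⌋ % (r : ℤ) ≠ 0
      then (1 : ℝ) else 0) ≤
      (if i < k then 1 else 0) + (if k ≤ i then ((d (i - k)).toNat : ℝ) + (d (i - k + 1)).toNat
        else 0) := by
    intro i
    by_cases hi : i < k
    · rw [if_pos hi, if_neg (not_le.2 hi)]
      split_ifs <;> norm_num
    · rw [if_neg hi, if_pos (not_lt.1 hi), zero_add]
      have e : (a + val r d) / (r : ℝ) ^ k * (r : ℝ) ^ (i + 1) =
          (a + val r d) * (r : ℝ) ^ (i - k + 1) := by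
        rw [show i + 1 = k + (i - k + 1) by omega, pow_add]
        field_simp
      rw [e]
      have := digit_zero hr a (d := d) (n := i - k)
      cases h1 : d (i - k) <;> cases h2 : d (i - k + 1) <;> split_ifs <;> simp_all
  rw [card_filter, Nat.cast_sum]
  have h1 : (∑ i ∈ range N, ((if ⌊(a + val r d) / (r : ℝ) ^ k * (r : ℝ) ^ (i + 1)⌋ % (r : ℤ) ≠ 0
      then 1 else 0 : ℕ) : ℝ)) ≤ ∑ i ∈ range N, ((if i < k then (1 : ℝ) else 0) +
        (if k ≤ i then ((d (i - k)).toNat : ℝ) + (d (i - k + 1)).toNat else 0)) :=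
    sum_le_sum fun i _ => by
      have := key i
      push_cast
      exact this
  refine h1.trans ?_
  rw [sum_add_distrib]
  have h2 : ∑ i ∈ range N, (if i < k then (1 : ℝ) else 0) ≤ k := by
    rw [← sum_filter, sum_const, nsmul_eq_mul, mul_one]
    have : ((range N).filter (· < k)).card ≤ k := by
      refine (card_le_card (t := range k) fun i hi => ?_).trans (card_range k).le
      exact mem_range.2 (mem_filter.1 hi).2
    exact_mod_cast this
  have h3 : ∑ i ∈ range N, (if k ≤ i then ((d (i - k)).toNat : ℝ) + (d (i - k + 1)).toNat else 0) ≤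
      ∑ i ∈ range N, (((d i).toNat : ℝ) + (d (i + 1)).toNat) := by
    rw [← sum_filter]
    refine le_trans (le_of_eq ?_) (sum_le_sum_of_subset_of_nonneg
      (s := (range N).filter (fun i => i + k < N)) (filter_subset _ _)
      fun i _ _ => by positivity)
    refine sum_nbij' (fun i => i - k) (fun i => i + k) ?_ ?_ ?_ ?_ ?_
    · intro i hi
      simp only [mem_filter, mem_range] at hi ⊢
      omega
    · intro i hi
      simp only [mem_filter, mem_range] at hi ⊢
      omega
    · intro i hi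
      simp only [mem_filter, mem_range] at hi
      exact Nat.sub_add_cancel hi.2
    · intro i hi
      exact Nat.add_sub_cancel _ _
    · intro i hi
      rfl
  have h4 : ∑ i ∈ range N, (((d i).toNat : ℝ) + (d (i + 1)).toNat) ≤
      2 * ∑ n ∈ range N, ((d n).toNat : ℝ) + 1 := by
    have := (sum_range_succ (fun i => ((d i).toNat : ℝ)) N).symm.trans (sum_range_succ' _ N)
    have h1 : ((d N).toNat : ℝ) ≤ 1 := by exact_mod_cast Bool.toNat_le _
    have h2 : (0 : ℝ) ≤ (d 0).toNat := by positivity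
    rw [sum_add_distrib]
    linarith
  linarith

/-- **Deterministic numbers with many normal images.** -/
theorem general {r : ℕ} (hr : 2 ≤ r) {u v : ℝ} (huv : u < v) {F : ℕ → ℝ → ℝ}
    (hF : ∀ i, {y | u < y ∧ y < v ∧
      ¬ ∃ β, Irrational β ∧ HasStrictDerivAt (F i) β y}.Countable) :
    ∃ y, u < y ∧ y < v ∧ Sparse r y ∧ Deterministic r y ∧ ∀ i, Normal r (F i y) := by
  have r2 : (2 : ℝ) ≤ r := by exact_mod_cast hr
  have r1 : (1 : ℝ) < r := by linarith
  obtain ⟨k, hk⟩ := exists_pow_lt_of_lt_one (show 0 < (v - u) / 3 by linarith)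
    (inv_lt_one_of_one_lt₀ r1)
  rw [inv_pow] at hk
  have rk : (0 : ℝ) < (r : ℝ) ^ k := by positivity
  set a : ℤ := ⌊u * (r : ℝ) ^ k⌋ + 1 with ha
  have a1 : u * (r : ℝ) ^ k < a := by rw [ha]; push_cast; exact Int.lt_floor_add_one _
  have a2 : (a : ℝ) ≤ u * (r : ℝ) ^ k + 1 := by
    rw [ha]; push_cast; linarith [Int.floor_le (u * (r : ℝ) ^ k)]
  have hx (x : ℝ) (x0 : 0 ≤ x) (x1 : x ≤ 1) :
      u < (a + x) / (r : ℝ) ^ k ∧ (a + x) / (r : ℝ) ^ k < v := by
    rw [lt_div_iff₀ rk, div_lt_iff₀ rk]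
    have : 1 < (v - u) / 3 * (r : ℝ) ^ k := by
      rw [inv_lt_iff_one_lt_mul₀ rk] at hk
      linarith
    constructor <;> nlinarith
  let G : ℕ → ℝ → ℝ := fun q x =>
    ((q.unpair.1 + 1 : ℕ) : ℝ) * F q.unpair.2 ((a + x) / (r : ℝ) ^ k)
  have hc : ∀ q, {x | 0 ≤ x ∧ x ≤ 1 ∧
      ¬ ∃ β, Irrational β ∧ HasStrictDerivAt (G q) β x}.Countable := by
    intro q
    have hinj : Function.Injective fun x : ℝ => (a + x) / (r : ℝ) ^ k := by
      intro x x' h
      simp only at h
      have := (div_left_inj' rk.ne').1 h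
      linarith
    refine ((hF q.unpair.2).preimage hinj).mono ?_
    rintro x ⟨x0, x1, hx'⟩
    refine ⟨(hx x x0 x1).1, (hx x x0 x1).2, fun ⟨β, hβ, hd⟩ => hx' ?_⟩
    refine ⟨((q.unpair.1 + 1 : ℕ) : ℝ) * (β * (1 / (r : ℝ) ^ k)), ?_, ?_⟩
    · have : β * (1 / (r : ℝ) ^ k) = β / ((r ^ k : ℕ) : ℝ) := by push_cast; ring
      rw [this]
      refine Irrational.natCast_mul ?_ (Nat.succ_ne_zero _)
      exact hβ.div_natCast (by positivity)
    · have h1 : HasStrictDerivAt (fun x : ℝ => (a + x) / (r : ℝ) ^ k) (1 / (r : ℝ) ^ k) x :=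
        ((hasStrictDerivAt_id x).const_add (a : ℝ)).div_const _
      exact (hd.comp x h1).const_mul _
  obtain ⟨d, h1, h2⟩ := main hr hc
  have y0 : 0 ≤ val r d := tsum_nonneg fun n => by positivity
  have y1 : val r d ≤ 1 := by
    obtain ⟨t, -, t1, ht⟩ := split hr d 0
    rw [ht]
    simpa using t1
  have hs := sparse_val hr a k h1
  refine ⟨(a + val r d) / (r : ℝ) ^ k, (hx _ y0 y1).1, (hx _ y0 y1).2, hs, hs.deterministic,
    fun i m w => ?_⟩
  refine normal hr (fun h hh => ?_) m w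
  have h3 := h2 (Nat.pair (h - 1) i)
  refine h3.congr fun N => ?_
  congr 1
  refine sum_congr rfl fun n _ => ?_
  simp only [G, Nat.unpair_pair]
  rw [Nat.sub_add_cancel hh]
  congr 1
  ring

/-- The version for countable families. -/
theorem general' {r : ℕ} (hr : 2 ≤ r) {u v : ℝ} (huv : u < v) {ι : Type*} [Countable ι]
    {F : ι → ℝ → ℝ}
    (hF : ∀ i, {y | u < y ∧ y < v ∧
      ¬ ∃ β, Irrational β ∧ HasStrictDerivAt (F i) β y}.Countable) :
    ∃ y, u < y ∧ y < v ∧ Sparse r y ∧ Deterministic r y ∧ ∀ i, Normal r (F i y) := by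
  rcases isEmpty_or_nonempty ι with h | h
  · obtain ⟨y, h1, h2, h3, h4, -⟩ := general hr huv (F := fun _ y => √2 * y) (fun _ => by
      convert Set.countable_empty
      refine Set.eq_empty_iff_forall_notMem.2 fun y hy => hy.2.2 ⟨√2, irrational_sqrt_two, ?_⟩
      simpa using (hasStrictDerivAt_id y).const_mul √2)
    exact ⟨y, h1, h2, h3, h4, fun i => (h.false i).elim⟩
  · obtain ⟨f, hf⟩ := exists_surjective_nat ι
    obtain ⟨y, h1, h2, h3, h4, h5⟩ := general hr huv (F := fun n => F (f n)) (fun n => hF (f n))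
    refine ⟨y, h1, h2, h3, h4, fun i => ?_⟩
    obtain ⟨n, rfl⟩ := hf i
    exact h5 n

end Pool.Agent.KS6_11.DetNormal
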