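import Pool.Agent.KS6_11.DetNormal.General

set_option autoImplicit false

open Finset Filter Topology Polynomial

namespace Pool.Agent.KS6_11.DetNormal

lemma countable_polynomial (K : Type) [Semiring K] [Countable K] : Countable K[X] := by
  rw [← Cardinal.mk_le_aleph0_iff]
  exact Polynomial.cardinalMk_le_max.trans (max_le Cardinal.mk_le_aleph0 le_rfl)

/-- A rational function with derivative `0` is constant. -/
lemma const_of_wronskian {K : Type} [Field K] [CharZero K] {Q R : K[X]} (hQ : Q ≠ 0)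
    (h : derivative R * Q = R * derivative Q) : ∃ b : K, R = C b * Q := by
  classical
  set g := EuclideanDomain.gcd R Q with hg
  have g0 : g ≠ 0 := fun h0 => hQ (EuclideanDomain.gcd_eq_zero_iff.1 h0).2
  obtain ⟨R1, hR⟩ := EuclideanDomain.gcd_dvd_left R Q
  obtain ⟨Q1, hQ1⟩ := EuclideanDomain.gcd_dvd_right R Q
  rw [← hg] at hR hQ1
  have hcop : IsCoprime R1 Q1 := by
    obtain ⟨a, b, hab⟩ : ∃ a b, g = R * a + Q * b := ⟨_, _, EuclideanDomain.gcd_eq_gcd_ab R Q⟩
    refine ⟨a, b, mul_left_cancel₀ g0 ?_⟩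
    rw [mul_one]
    conv_rhs => rw [hab, hR, hQ1]
    ring
  have hw : wronskian R1 Q1 = 0 := by
    have h2 : g * g * wronskian R1 Q1 = 0 := by
      rw [hR, hQ1] at h
      simp only [derivative_mul] at h
      rw [wronskian]
      linear_combination -h
    rcases mul_eq_zero.1 h2 with h3 | h3
    · exact absurd (mul_self_eq_zero.1 h3) g0
    · exact h3
  obtain ⟨h3, h4⟩ := hcop.wronskian_eq_zero_iff.1 hw
  have h5 := eq_C_of_derivative_eq_zero h3
  have h6 := eq_C_of_derivative_eq_zero h4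
  have q0 : Q1.coeff 0 ≠ 0 := fun h0 => hQ (by rw [hQ1, h6, h0, C_0, mul_zero])
  refine ⟨R1.coeff 0 / Q1.coeff 0, ?_⟩
  rw [hR, hQ1]
  conv_lhs => rw [h5]
  conv_rhs => rw [h6]
  rw [coeff_C_zero, mul_left_comm, ← C_mul, div_mul_cancel₀ _ q0]

/-- The rational function `P / Q` is not of the form `c X + b` with rational `c`. -/
def NotAffine {K : Type} [Field K] (P Q : K[X]) : Prop :=
  ∀ (c : ℚ) (b : K), P ≠ (C (c : K) * X + C b) * Q

lemma bad_countable (K : Subfield ℝ) {P Q : K[X]} (hQ : Q ≠ 0) (h : NotAffine P Q) :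
    {y : ℝ | ¬ ∃ β, Irrational β ∧
      HasStrictDerivAt (fun y : ℝ => aeval y P / aeval y Q) β y}.Countable := by
  let W : ℚ → K[X] := fun c => derivative P * Q - P * derivative Q - C (c : K) * Q ^ 2
  have hW : ∀ c, W c ≠ 0 := by
    intro c hc
    obtain ⟨b, hb⟩ := const_of_wronskian (R := P - C (c : K) * X * Q) hQ (by
      simp only [derivative_sub, derivative_mul, derivative_C, derivative_X]
      simp only [W] at hc
      linear_combination hc)
    exact h c b (by linear_combination hb)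
  have hfin : ∀ R : K[X], R ≠ 0 → {y : ℝ | aeval y R = 0}.Finite := by
    intro R hR
    have hR' : R.map (algebraMap K ℝ) ≠ 0 := (Polynomial.map_ne_zero_iff
      (algebraMap K ℝ).injective).2 hR
    refine (R.map (algebraMap K ℝ)).roots.toFinset.finite_toSet.subset fun y hy => ?_
    have : aeval y R = 0 := hy
    rw [Finset.mem_coe, Multiset.mem_toFinset, mem_roots hR', IsRoot, eval_map_algebraMap]
    exact this
  refine ((hfin Q hQ).countable.union (Set.countable_iUnion fun c : ℚ =>
    (hfin (W c) (hW c)).countable)).mono fun y hy => ?_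
  by_contra hcon
  simp only [Set.mem_union, Set.mem_iUnion, not_or, not_exists] at hcon
  obtain ⟨hQy, hWy⟩ := hcon
  have hQy' : aeval y Q ≠ 0 := hQy
  refine hy ⟨(aeval y (derivative P) * aeval y Q - aeval y P * aeval y (derivative Q)) /
    (aeval y Q) ^ 2, ?_, (P.hasStrictDerivAt_aeval y).div (Q.hasStrictDerivAt_aeval y) hQy'⟩
  rintro ⟨c, hc⟩
  refine hWy c ?_
  rw [eq_div_iff (pow_ne_zero 2 hQy')] at hc
  change aeval y (W c) = 0
  simp only [W, map_sub, map_mul, map_pow, aeval_C]
  have e : algebraMap K ℝ (c : K) = (c : ℝ) := by simp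
  rw [e]
  linear_combination -hc

/-- For every countable subfield `K` of `ℝ` and all `u < v` there is a deterministic number in
`(u, v)` at which the values of all rational functions over `K`, except for those of the form
`c X + b` with rational `c`, are normal. -/
theorem rational {r : ℕ} (hr : 2 ≤ r) {u v : ℝ} (huv : u < v) (K : Subfield ℝ) [Countable K] :
    ∃ y, u < y ∧ y < v ∧ Sparse r y ∧ Deterministic r y ∧
      ∀ P Q : K[X], Q ≠ 0 → NotAffine P Q → Normal r (aeval y P / aeval y Q) := by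
  have := countable_polynomial K
  obtain ⟨y, h1, h2, h3, h4, h5⟩ := general' hr huv
    (ι := {p : K[X] × K[X] // p.2 ≠ 0 ∧ NotAffine p.1 p.2})
    (F := fun p y => aeval y p.1.1 / aeval y p.1.2)
    (fun p => (bad_countable K p.2.1 p.2.2).mono fun y hy => hy.2.2)
  exact ⟨y, h1, h2, h3, h4, fun P Q hQ hP => h5 ⟨(P, Q), hQ, hP⟩⟩

lemma Normal.not_deterministic {r : ℕ} (hr : 2 ≤ r) {x : ℝ} (h : Normal r x) :
    ¬ Deterministic r x := by
  intro hd
  have hlog : 0 < Real.log r := Real.log_pos (by exact_mod_cast hr)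
  obtain ⟨n, hn, N0, hN⟩ := hd (Real.log r / 2) (by positivity)
  have h1 := tendsto_finsetSum univ fun (w : Fin n → Fin r) _ =>
    (Real.continuous_negMulLog.tendsto _).comp (h n w)
  have h2 : ∑ _x : Fin n → Fin r, (1 / (r : ℝ) ^ n).negMulLog = n * Real.log r := by
    simp [Real.negMulLog]; field_simp
  rw [h2] at h1
  have h3 : (n : ℝ) * Real.log r ≤ Real.log r / 2 * n :=
    le_of_tendsto h1 (eventually_atTop.2 ⟨N0, fun N hN' => (hN N hN').le⟩)
  have h4 : (0 : ℝ) < n := by exact_mod_cast hn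
  nlinarith [mul_pos h4 hlog]

/-- `1 / y` is normal for some deterministic `y`. -/
theorem reciprocal {r : ℕ} (hr : 2 ≤ r) : ∃ x : ℝ, Normal r x ∧ Deterministic r (1 / x) := by
  have hna : NotAffine (K := (⊤ : Subfield ℝ)) 1 X := by
    intro c b h
    have := congrArg (fun p => p.coeff 0) h
    simp at this
  obtain ⟨y, h1, -, -, h4, h5⟩ := general hr (u := 1) (v := 2) one_lt_two
    (F := fun _ y => aeval y (1 : (⊤ : Subfield ℝ)[X]) / aeval y (X : (⊤ : Subfield ℝ)[X]))
    (fun _ => (bad_countable _ X_ne_zero hna).mono fun y hy => hy.2.2)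
  refine ⟨y⁻¹, ?_, ?_⟩
  · have := h5 0
    simpa using this
  · simpa using h4

/-- Affine functions. -/
theorem affine {r : ℕ} (hr : 2 ≤ r) {u v : ℝ} (huv : u < v) {B C : Set ℝ} (hB : B.Countable)
    (hB' : ∀ b ∈ B, Irrational b) (hC : C.Countable) :
    ∃ y, u < y ∧ y < v ∧ Sparse r y ∧ Deterministic r y ∧
      ∀ b ∈ B, ∀ c ∈ C, Normal r (b * y + c) := by
  have := hB.to_subtype
  have := hC.to_subtype
  obtain ⟨y, h1, h2, h3, h4, h5⟩ := general' hr huv (ι := B × C)
    (F := fun p y => (p.1 : ℝ) * y + p.2) (fun p => by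
      convert Set.countable_empty
      refine Set.eq_empty_iff_forall_notMem.2 fun y hy => hy.2.2 ⟨p.1, hB' _ p.1.2, ?_⟩
      simpa using ((hasStrictDerivAt_id y).const_mul (p.1 : ℝ)).add_const (p.2 : ℝ))
  exact ⟨y, h1, h2, h3, h4, fun b hb c hc => h5 (⟨b, hb⟩, ⟨c, hc⟩)⟩

end Pool.Agent.KS6_11.DetNormal
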