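import Pool.Graph.R_pool_sql_team_39128cda.H.MP_f44585_an.D

set_option autoImplicit false

/-!
# Deterministic numbers with many normal images: the construction

Version of the construction of the imported library file (one function) for countably many functions
at once, each of which may fail to be differentiable with irrational derivative at countably many
points.
-/

open Finset Filter Topology

namespace Pool.Agent.KS6_11.DetNormal

open Pool.Agent.H.MP_f44585_an

variable {r : ℕ}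

def Good (r : ℕ) (G : ℕ → ℝ → ℝ) (j M : ℕ) (d : ℕ → Bool) : Prop :=
  ∃ (L : ℕ) (d' : ℕ → Bool), j ≤ L ∧ j * L ≤ M ∧ (∀ n < M, d' n = d n) ∧
    (j : ℝ) * ∑ n ∈ Ico M (M + L), ((d' n).toNat : ℝ) ≤ L ∧
    ∀ e, (∀ n < M + L, e n = d' n) → ∀ h < j,
      j * ‖∑ n ∈ Ico M (M + L), ee (r ^ n * G h (val r e))‖ ≤ L

lemma stage (hr : 2 ≤ r) {G : ℕ → ℝ → ℝ} {β : ℕ → ℝ} {y : ℝ}
    (hG : ∀ h, HasStrictDerivAt (G h) (β h) y) (hβ : ∀ h, Irrational (β h))
    (j : ℕ) : ∀ᶠ M in atTop, ∀ d, (∀ e, (∀ n < M, e n = d n) → |val r e - y| ≤ 1 / r ^ M) →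
      Good r G (j + 1) M d := by
  have r2 : (2 : ℝ) ≤ r := by exact_mod_cast hr
  have r1 : (1 : ℝ) < r := by linarith
  set J : ℝ := j + 1 with hJ
  have J1 : 1 ≤ J := by simp [hJ]
  set η : ℝ := 1 / (256 * J ^ 3) with hη
  have η0 : 0 < η := by positivity
  have lim : Tendsto (fun M : ℕ => 1 / (r : ℝ) ^ M) atTop (𝓝 0) :=
    tendsto_const_nhds.div_atTop (tendsto_pow_atTop_atTop_of_one_lt r1)
  obtain ⟨D, hD⟩ : ∃ D, ∀ h ∈ range (j + 1), ∏ i ∈ range D,
      ‖(((2 * j : ℕ) + 2 : ℝ) - 1 : ℝ) + ee (r ^ i * β h)‖ / ((2 * j : ℕ) + 2) ≤ η := by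
    refine ((eventually_all_finset _).2 fun h hh => (decay hr (by simp) fun i k => ?_).eventually
      (ge_mem_nhds η0)).exists
    obtain ⟨n, hn⟩ := ee_one k
    refine (((hβ h).natCast_mul (m := r ^ i) ?_).ne_int n) (by rw [← hn]; push_cast; ring)
    positivity
  set K := ∑ h ∈ range (j + 1), |β h| + 1 with hK
  have K1 : 1 ≤ K := by
    rw [hK]
    linarith [sum_nonneg (s := range (j + 1)) fun h _ => abs_nonneg (β h)]
  have Kh (h) (hh : h ∈ range (j + 1)) : |β h| + 1 ≤ K := by
    rw [hK]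
    linarith [single_le_sum (f := fun h => |β h|) (fun h _ => abs_nonneg (β h)) hh]
  obtain ⟨D', hD'⟩ := (lim.eventually (ge_mem_nhds
    (show 0 < η / 2 / (J * K) by positivity))).exists
  have κ0 : 0 < min 1 (η / 2 / (J * r ^ D)) := by positivity
  obtain ⟨δ, δ0, hδ⟩ := Metric.eventually_nhds_iff.1
    ((eventually_all_finset (range (j + 1))).2 fun h _ => (hG h).isLittleO.def κ0)
  obtain ⟨L, hL⟩ := exists_nat_ge (max (J + 14 * J ^ 2 * K) (64 * J ^ 3 * (D + D' : ℕ)))
  rw [max_le_iff] at hL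
  have L0 : (0 : ℝ) < L := lt_of_lt_of_le (by positivity) hL.1
  filter_upwards [lim.eventually (gt_mem_nhds δ0), eventually_ge_atTop ((j + 1) * L)]
    with M hM hM2 d hd
  have str {e e' : ℕ → Bool} (h : ∀ n < M, e n = d n) (h' : ∀ n < M, e' n = d n) (p)
      (hp : p ∈ range (j + 1)) :
      |G p (val r e) - G p (val r e') - (val r e - val r e') * β p| ≤
        min 1 (η / 2 / (J * r ^ D)) * |val r e - val r e'| :=
    hδ (y := (val r e, val r e')) (max_lt ((hd e h).trans_lt hM) ((hd e' h').trans_lt hM)) p hp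
  have lip {e e' : ℕ → Bool} (h : ∀ n < M, e n = d n) (h' : ∀ n < M, e' n = d n) (p)
      (hp : p ∈ range (j + 1)) :
      |G p (val r e) - G p (val r e')| ≤ K * |val r e - val r e'| := by
    have := (abs_sub_abs_le_abs_sub _ _).trans ((str h h' p hp).trans
      (mul_le_mul_of_nonneg_right (min_le_left _ _) (abs_nonneg _)))
    rw [abs_mul] at this
    have h2 := mul_le_mul_of_nonneg_right (Kh p hp) (abs_nonneg (val r e - val r e'))
    nlinarith
  have low (ω : Ico M (M + L) → Fin (2 * j + 2)) (n) (hn : n < M) : dig _ d ω n = d n :=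
    dif_neg (by simp; omega)
  have mom (h) (hh : h ∈ range (j + 1)) := moment (Ico M (M + L))
    (fun n (ω : Ico M (M + L) → Fin (2 * j + 2)) => ee (r ^ n * G h (val r (dig _ d ω))))
    (fun _ _ => ee_norm _) (T := D + D') (η := 8 * η) (by positivity) fun n hn m hm hmn => by
      rw [mem_Ico] at hn hm
      simp only [ee_conj, ← ee_add]
      refine far hr (φ := fun x => r ^ n * G h x + -(r ^ m * G h x)) (n := n) (D := D)
        (by omega) (Ico_subset_Ico (by omega) hn.2.le) (fun ω ω' hv => ?_) (hD h hh)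
      have h1 := (str (low ω) (low ω') h hh).trans
        (mul_le_mul (min_le_right _ _) hv (abs_nonneg _) (by positivity))
      have h2 := (lip (low ω) (low ω') h hh).trans (mul_le_mul_of_nonneg_left hv (by positivity))
      generalize val r (dig _ d ω) = a at *
      generalize val r (dig _ d ω') = b at *
      rw [show r ^ n * G h a + -(r ^ m * G h a) - (r ^ n * G h b + -(r ^ m * G h b)) -
        r ^ n * β h * (a - b) = r ^ n * (G h a - G h b - (a - b) * β h) - r ^ m * (G h a - G h b)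
        by ring]
      refine (abs_sub _ _).trans ?_
      simp only [abs_mul, abs_pow, Nat.abs_cast]
      have e1 : J * (r ^ n * (η / 2 / (J * r ^ D) * (1 / r ^ (n - D)))) = η / 2 := by
        rw [show (r : ℝ) ^ n = r ^ D * r ^ (n - D) by rw [← pow_add]; congr 1; omega]
        field_simp
      have e2 : J * (r ^ m * (K * (1 / r ^ (n - D)))) ≤ η / 2 := by
        rw [le_div_iff₀ (by positivity)] at hD'
        refine le_trans ?_ hD'
        have : (r : ℝ) ^ m * r ^ D' ≤ r ^ (n - D) := by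
          rw [← pow_add]; exact pow_le_pow_right₀ r1.le (by omega)
        rw [show J * (r ^ m * (K * (1 / r ^ (n - D)))) = r ^ m / r ^ (n - D) * (J * K) by ring]
        refine mul_le_mul_of_nonneg_right ?_ (by positivity)
        rwa [div_le_div_iff₀ (by positivity) (by positivity), one_mul]
      have g1 : r ^ n * |G h a - G h b - (a - b) * β h| ≤ η / 2 := by
        rw [← e1]
        refine le_trans ?_ (le_mul_of_one_le_left (by positivity) J1)
        gcongr
      have g2 : r ^ m * |G h a - G h b| ≤ η / 2 := by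
        refine le_trans ?_ e2
        refine le_trans ?_ (le_mul_of_one_le_left (by positivity) J1)
        gcongr
      linarith
  have cnt := count (q := 2 * j) (Ico M (M + L)) d
  simp only [Nat.card_Ico, Nat.add_sub_cancel_left] at mom cnt
  have c0 : (0 : ℝ) < Fintype.card (Ico M (M + L) → Fin (2 * j + 2)) := by
    exact_mod_cast Fintype.card_pos
  obtain ⟨ω, -, hω⟩ := exists_le_of_sum_le (s := univ) univ_nonempty (g := fun _ => (1 : ℝ))
    (f := fun ω : Ico M (M + L) → Fin (2 * j + 2) => 4 * J ^ 2 / L ^ 2 * ∑ h ∈ range (j + 1),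
      ‖∑ n ∈ Ico M (M + L), ee (r ^ n * G h (val r (dig _ d ω)))‖ ^ 2 +
      J / L * ∑ n ∈ Ico M (M + L), ((dig _ d ω n).toNat : ℝ)) (by
      rw [sum_add_distrib, ← mul_sum, ← mul_sum, sum_comm, sum_const, card_univ, nsmul_eq_mul]
      have a1 := sum_le_sum mom
      rw [sum_const, card_range, nsmul_eq_mul] at a1
      have a2 := mul_le_mul_of_nonneg_left a1 (show 0 ≤ 4 * J ^ 2 / L ^ 2 by positivity)
      rw [show ((2 * j : ℕ) + 2 : ℝ) = 2 * J by rw [hJ]; push_cast; ring] at cnt
      rw [show ((j + 1 : ℕ) : ℝ) = J by simp [hJ]] at a2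
      generalize (Fintype.card (Ico M (M + L) → Fin (2 * j + 2)) : ℝ) = c at *
      generalize ((D + D' : ℕ) : ℝ) = T at *
      have e1 : 4 * J ^ 2 / L ^ 2 * (J * (c * (L * (2 * T) + L ^ 2 * (8 * η)))) =
          c * (64 * J ^ 3 * T / L / 8 + 1 / 8) := by rw [hη]; field_simp; ring
      have e2 := (div_le_one L0).2 hL.2
      have e3 := (eq_div_iff (by positivity)).2 ((mul_comm _ _).trans cnt)
      rw [e3, show J / L * (c * L / (2 * J)) = c / 2 by field_simp]
      nlinarith)
  have p1 : 0 ≤ J / L * ∑ n ∈ Ico M (M + L), ((dig _ d ω n).toNat : ℝ) := by positivity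
  have p2 : 0 ≤ 4 * J ^ 2 / L ^ 2 * ∑ h ∈ range (j + 1),
      ‖∑ n ∈ Ico M (M + L), ee (r ^ n * G h (val r (dig _ d ω)))‖ ^ 2 := by positivity
  have eJ : ((j + 1 : ℕ) : ℝ) = J := by simp [hJ]
  refine ⟨L, dig _ d ω, ?_, hM2, low ω, ?_, fun e he h h1 => ?_⟩
  · exact_mod_cast eJ.le.trans (le_trans (le_add_of_nonneg_right (by positivity)) hL.1)
  · rw [eJ, ← div_le_one L0, ← div_mul_eq_mul_div]
    linarith
  have s1 := mul_le_mul_of_nonneg_left (single_le_sum (f := fun h : ℕ =>
    ‖∑ n ∈ Ico M (M + L), ee (r ^ n * G h (val r (dig _ d ω)))‖ ^ 2) (fun _ _ => by positivity)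
    (mem_range.2 h1)) (show 0 ≤ 4 * J ^ 2 / L ^ 2 by positivity)
  have s2 : 2 * J * ‖∑ n ∈ Ico M (M + L), ee (r ^ n * G h (val r (dig _ d ω)))‖ ≤ L := by
    refine abs_le_of_sq_le_sq' ?_ L0.le |>.2
    rw [← div_le_one (by positivity), mul_pow, mul_pow, ← div_mul_eq_mul_div]
    linarith
  have v := (lip (fun n hn => (he n (by omega)).trans (low ω n hn)) (low ω) h
    (mem_range.2 h1)).trans (mul_le_mul_of_nonneg_left (val_close hr he) (by positivity))
  have s3 := norm_sum_le_of_le (Ico M (M + L)) (n := fun n => 7 * J * K / r ^ (M + L) * r ^ n)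
    (f := fun n => ee (r ^ n * G h (val r e)) - ee (r ^ n * G h (val r (dig _ d ω))))
    fun n _ => (ee_sub _ _).trans (by
      rw [← mul_sub, abs_mul, abs_pow, Nat.abs_cast,
        show 7 * J * K / r ^ (M + L) * r ^ n = 7 * (J * (r ^ n * (K * (1 / r ^ (M + L))))) by ring]
      have : (r : ℝ) ^ n * |G h (val r e) - G h (val r (dig _ d ω))| ≤
          r ^ n * (K * (1 / r ^ (M + L))) := by gcongr
      refine mul_le_mul_of_nonneg_left (this.trans ?_) (by norm_num)
      exact le_mul_of_one_le_left (by positivity) J1)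
  have s4 : ∑ n ∈ Ico M (M + L), (r : ℝ) ^ n ≤ r ^ (M + L) := by
    exact_mod_cast (Nat.geomSum_lt hr fun k hk => (mem_Ico.1 hk).2).le
  rw [sum_sub_distrib, ← mul_sum] at s3
  have s5 := s3.trans ((mul_le_mul_of_nonneg_left s4 (by positivity)).trans_eq
    (div_mul_cancel₀ _ (by positivity)))
  have s6 := (norm_le_norm_add_norm_sub' _ _).trans (add_le_add le_rfl s5)
  rw [eJ]
  nlinarith [mul_le_mul_of_nonneg_left s6 (show 0 ≤ J by positivity)]

/-- One sparse digit sequence for countably many functions. -/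
theorem main (hr : 2 ≤ r) {G : ℕ → ℝ → ℝ}
    (hc : ∀ h, {y | 0 ≤ y ∧ y ≤ 1 ∧
      ¬ ∃ β, Irrational β ∧ HasStrictDerivAt (G h) β y}.Countable) :
    ∃ d : ℕ → Bool,
      Tendsto (fun N : ℕ => (∑ n ∈ range N, ((d n).toNat : ℝ)) / N) atTop (𝓝 0) ∧ ∀ h : ℕ,
      Tendsto (fun N : ℕ => (∑ n ∈ range N, ee (r ^ n * G h (val r d))) / N) atTop (𝓝 0) := by
  classical
  obtain ⟨b, hb⟩ := Set.countable_iff_exists_subset_range.1 (Set.countable_iUnion hc)
  have step (i : ℕ) (p : ℕ × (ℕ → Bool)) : ∃ (L : ℕ) (d' : ℕ → Bool), (∀ n < p.1, d' n = p.2 n) ∧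
      ∀ e, (∀ n < p.1 + L + 2, e n = d' n) → val r e ≠ b i ∧ ∀ j, Good r G j p.1 p.2 →
        j ≤ L ∧ j * L ≤ p.1 ∧ (j : ℝ) * ∑ n ∈ Ico p.1 (p.1 + L), ((e n).toNat : ℝ) ≤ L ∧ ∀ h < j,
        j * ‖∑ n ∈ Ico p.1 (p.1 + L), ee (r ^ n * G h (val r e))‖ ≤ L := by
    obtain ⟨L, d1, h1, h2, h3, h4, h5⟩ := Nat.findGreatest_spec (P := fun j => Good r G j p.1 p.2)
      p.1.zero_le ⟨0, p.2, by simp⟩
    obtain ⟨d2, k1, -, k2⟩ := avoid hr d1 (p.1 + L) (b i)
    refine ⟨L, d2, fun n hn => (k1 n (by omega)).trans (h3 n hn), fun e he => ⟨k2 e he, fun j hj => ?_⟩⟩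
    have hJ := Nat.le_findGreatest (P := fun j => Good r G j p.1 p.2) (n := p.1)
      (by obtain ⟨L, -, a, b, -⟩ := hj; nlinarith) hj
    have hJ' : (j : ℝ) ≤ Nat.findGreatest (fun j => Good r G j p.1 p.2) p.1 := by exact_mod_cast hJ
    have ag (n) (hn : n < p.1 + L) : e n = d1 n := (he n (by omega)).trans (k1 n hn)
    refine ⟨hJ.trans h1, (Nat.mul_le_mul_right _ hJ).trans h2, le_trans ?_ h4, fun h b =>
      le_trans (by gcongr) (h5 e ag h (b.trans_le hJ))⟩
    rw [sum_congr rfl fun n hn => by rw [ag n (mem_Ico.1 hn).2]]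
    gcongr
  choose L D h1 h2 using step
  let s : ℕ → ℕ × (ℕ → Bool) := fun i => i.rec (0, fun _ => false) fun i p => (p.1 + L i p + 2, D i p)
  have hM (i) : (s (i + 1)).1 = (s i).1 + L i (s i) + 2 := rfl
  have mono : StrictMono fun i => (s i).1 := strictMono_nat_of_lt_succ fun i => by rw [hM]; omega
  have ag (i k) (hk : i ≤ k) (n) (hn : n < (s i).1) : (s k).2 n = (s i).2 n := by
    induction k, hk using Nat.le_induction with
    | base => rfl
    | succ k hk ih => exact (h1 k (s k) n (hn.trans_le (mono.monotone hk))).trans ih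
  let e : ℕ → Bool := fun n => (s (n + 1)).2 n
  have he (i n) (hn : n < (s i).1) : e n = (s i).2 n :=
    (ag _ _ (le_max_left (n + 1) i) n (n.lt_succ_self.trans_le mono.le_apply)).symm.trans
      (ag _ _ (le_max_right _ _) n hn)
  have y0 : 0 ≤ val r e := tsum_nonneg fun n => by positivity
  have y1 : val r e ≤ 1 := by
    obtain ⟨t, -, t1, ht⟩ := split hr e 0
    rw [ht]
    simpa using t1
  have irr (h : ℕ) : ∃ β, Irrational β ∧ HasStrictDerivAt (G h) β (val r e) := by
    by_contra k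
    obtain ⟨i, hi⟩ := hb (Set.mem_iUnion.2 ⟨h, y0, y1, k⟩)
    exact (h2 i (s i) e (he (i + 1))).1 hi.symm
  choose β irr hG using irr
  have good : ∀ᶠ j in atTop, ∀ᶠ i in atTop, Good r G j (s i).1 (s i).2 := by
    filter_upwards [eventually_ge_atTop 1] with j hj
    obtain ⟨j, rfl⟩ := Nat.exists_eq_add_of_le' hj
    exact (mono.tendsto_atTop.eventually (stage hr hG irr j)).mono fun i hi =>
      hi _ fun e' h => val_close hr fun n hn => (h n hn).trans (he i n hn).symm
  refine ⟨e, ?_, fun h => average2 (M := fun i => (s i).1) (L := fun i => L i (s i))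
    (fun n => (ee_norm _).le) hM ?_⟩
  · have := average2 (u := fun n => ((e n).toNat : ℝ)) (M := fun i => (s i).1)
      (L := fun i => L i (s i)) (fun n => by simpa using Bool.toNat_le _) hM
      (good.mono fun j hj => hj.mono fun i hi => by
        obtain ⟨a, b, c, -⟩ := (h2 i (s i) e (he (i + 1))).2 j hi
        refine ⟨a, b, ?_⟩
        rwa [← Complex.ofReal_sum, Complex.norm_real, Real.norm_of_nonneg (by positivity)])
    simpa [Function.comp_def] using (Complex.continuous_re.tendsto _).comp this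
  filter_upwards [good, eventually_gt_atTop h] with j hj k
  exact hj.mono fun i hi => by
    obtain ⟨a, b, -, c⟩ := (h2 i (s i) e (he (i + 1))).2 j hi
    exact ⟨a, b, c h k⟩

end Pool.Agent.KS6_11.DetNormal
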